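import Pool.Agent.Helper73.RF.GoalsB

set_option autoImplicit false

open Finset

namespace Pool.Agent.Helper71.RF

open Pool.Agent.Helper73.RF

variable {T : ℝ}

/-- the linear function of time `c - l t` -/
noncomputable def Lt (F : FBD T) (c l : ℝ) : F.B := algebraMap ℝ F.B c - l • F.tt

theorem ev_Lt (F : FBD T) (hF : F.Base) (c l : ℝ) (z : F.Z) (t : TI T) :
    F.ev z t (Lt F c l) = c - l * t := by
  unfold Lt
  rw [map_sub, map_smul, hF.tt_ev, AlgHom.commutes, Algebra.algebraMap_self, RingHom.id_apply,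
    smul_eq_mul]

theorem H_Lt (F : FBD T) (hF : F.Base) (c l : ℝ) (a : Fin 3) : F.H a (Lt F c l) = 0 := by
  unfold Lt
  rw [map_sub, Derivation.map_smul, Derivation.map_algebraMap, hF.tt_H, smul_zero, sub_zero]

theorem D_Lt (F : FBD T) (hF : F.Base) (c l : ℝ) : F.D (Lt F c l) = -(l • (1 : F.B)) := by
  unfold Lt
  rw [map_sub, Derivation.map_smul, Derivation.map_algebraMap, hF.tt_D, zero_sub]

theorem Hop_mul_Lt (F : FBD T) (hF : F.Base) (c l : ℝ) (f : F.B) :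
    F.Hop (f * Lt F c l) = Lt F c l * F.Hop f - l • f := by
  have h1 : ∀ (g : F.B) (a : Fin 3), F.H a (g * Lt F c l) = F.H a g * Lt F c l := by
    intro g a
    rw [Derivation.leibniz, H_Lt F hF, smul_zero, zero_add, smul_eq_mul, mul_comm]
  unfold FBD.Hop FBD.Lap
  rw [Derivation.leibniz, D_Lt F hF]
  simp only [h1]
  rw [← Finset.sum_mul, smul_eq_mul, smul_eq_mul, mul_neg, mul_smul_comm, mul_one]
  ring

theorem Hop_sub_one (F : FBD T) (f : F.B) : F.Hop (f - 1) = F.Hop f := by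
  unfold FBD.Hop FBD.Lap
  simp only [map_sub, Derivation.map_one_eq_zero, sub_zero]

theorem Hop_one_sub (F : FBD T) (f : F.B) : F.Hop (1 - f) = -F.Hop f := by
  unfold FBD.Hop FBD.Lap
  simp only [map_sub, Derivation.map_one_eq_zero, map_neg, zero_sub, Finset.sum_neg_distrib]
  ring

theorem Hop_sub_alg (F : FBD T) (f : F.B) (c : ℝ) :
    F.Hop (f - algebraMap ℝ F.B c) = F.Hop f := by
  unfold FBD.Hop FBD.Lap
  simp only [map_sub, Derivation.map_algebraMap, sub_zero]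

theorem ev_alg (F : FBD T) (c : ℝ) (z : F.Z) (t : TI T) : F.ev z t (algebraMap ℝ F.B c) = c := by
  rw [AlgHom.commutes, Algebra.algebraMap_self, RingHom.id_apply]

theorem ev_Hop_s (F : FBD T) (hs : F.Hop F.s = F.s ^ 2 + F.n2) (z : F.Z) (t : TI T) :
    F.ev z t (F.Hop F.s) = 4 / 3 * F.ev z t F.s ^ 2 + F.ev z t F.q := by
  rw [hs]
  unfold FBD.q
  rw [map_add, map_pow, map_sub, map_smul, map_pow, smul_eq_mul]
  ring

theorem s2 (hMP1 : Mp1Stmt) (hBDD : BddStmt) (hEVS : EvsStmt) (hBIA : BiaStmt) : S2Stmt := by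
  intro T F hF hRF t1 m hm hm1
  have hB : F.Base := hF.toBase
  obtain ⟨hs, -⟩ := hEVS T F hF hRF
  have hq : ∀ z t, 0 ≤ F.ev z t F.q := fun z t => (hBIA T F hF hRF z t).2.2.2.2.2.1
  obtain ⟨-, hbd, -, hct⟩ := hBDD T F hB
  have ht1 : (0 : ℝ) ≤ t1 := t1.2.1.le
  have hpart1 : ∀ z (t : TI T), (t1 : ℝ) ≤ t → m ≤ F.ev z t F.s := by
    intro z t ht
    rcases eq_or_lt_of_le ht with h | h
    · have : t1 = t := Subtype.ext h
      rw [← this]; exact hm1 z
    · have key := hMP1 T F hB (F.s - algebraMap ℝ F.B m) t1 t 0 1 ht1 t.2.2 le_rfl one_pos ?_ ?_ z t h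
        le_rfl
      · rw [map_sub, ev_alg] at key
        linarith
      · intro ε hε
        obtain ⟨δ, hδ, h2⟩ := hct F.s t1 m hm1 ε hε
        refine ⟨δ, hδ, fun z' t' h3 h4 => ?_⟩
        have := h2 z' t' (by rw [abs_of_pos (by linarith)]; linarith)
        rw [map_sub, ev_alg]
        linarith
      · intro z' t' _ _ _ _ _
        rw [zero_mul, Hop_sub_alg, ev_Hop_s F hs]
        have := hq z' t'
        positivity
  refine ⟨hpart1, ?_⟩
  by_contra hcon
  push Not at hcon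
  have hTt : 0 < T - (t1 : ℝ) := by linarith [t1.2.2]
  have h4m : 3 / (4 * m) < T - t1 := by
    rw [div_lt_iff₀ (by positivity)] at hcon ⊢
    linarith
  set t2 : ℝ := t1 + 3 / (4 * m) with ht2
  have hpos : 0 < 3 / (4 * m) := by positivity
  have ht2T : t2 < T := by rw [ht2]; linarith
  obtain ⟨C, hC⟩ := hbd F.s t1 t2 t1.2.1 ht2T
  let t2' : TI T := ⟨t2, by rw [ht2]; linarith [t1.2.1], ht2T⟩
  obtain ⟨z0⟩ := F.neZ
  have hC0 : 0 ≤ C := (abs_nonneg _).trans (hC z0 t1 le_rfl (by rw [ht2]; linarith))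
  set f : F.B := F.s * Lt F (1 / m + 4 / 3 * t1) (4 / 3) - 1 with hf
  have evf : ∀ z (t : TI T), F.ev z t f =
      F.ev z t F.s * (1 / m + 4 / 3 * t1 - 4 / 3 * t) - 1 := by
    intro z t
    rw [hf, map_sub, map_mul, ev_Lt F hB, map_one]
  have key := hMP1 T F hB f t1 t2 (4 / 3 * C) 1 ht1 ht2T (by positivity) one_pos ?_ ?_ z0 t2'
    (by show (t1 : ℝ) < t2; rw [ht2]; linarith) le_rfl
  · rw [evf] at key
    have : (1 / m + 4 / 3 * (t1 : ℝ) - 4 / 3 * ((t2' : TI T) : ℝ)) = 0 := by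
      show (1 / m + 4 / 3 * (t1 : ℝ) - 4 / 3 * t2) = 0
      rw [ht2]
      field_simp
      ring
    rw [this] at key
    linarith
  · intro ε hε
    obtain ⟨δ, hδ, h2⟩ := hct f t1 0 (fun z => by
      rw [evf]
      have h3 := hm1 z
      have : 1 ≤ F.ev z t1 F.s * (1 / m + 4 / 3 * (t1 : ℝ) - 4 / 3 * t1) := by
        rw [show (1 / m + 4 / 3 * (t1 : ℝ) - 4 / 3 * t1) = 1 / m by ring, mul_one_div, le_div_iff₀ hm]
        linarith
      linarith) ε hε
    refine ⟨δ, hδ, fun z' t' h3 h4 => ?_⟩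
    have := h2 z' t' (by rw [abs_of_pos (by linarith)]; linarith)
    linarith
  · intro z' t' h1 h2 _ _ h5
    have hL : 0 ≤ 1 / m + 4 / 3 * (t1 : ℝ) - 4 / 3 * t' := by
      have : (4 / 3 : ℝ) * t2 = 1 / m + 4 / 3 * t1 := by
        rw [ht2]; field_simp; ring
      linarith
    have eH : F.ev z' t' (F.Hop f) = (1 / m + 4 / 3 * (t1 : ℝ) - 4 / 3 * t') *
        (4 / 3 * F.ev z' t' F.s ^ 2 + F.ev z' t' F.q) - 4 / 3 * F.ev z' t' F.s := by
      rw [hf, Hop_sub_one, Hop_mul_Lt F hB, map_sub, map_mul, ev_Lt F hB, map_smul, ev_Hop_s F hs,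
        smul_eq_mul]
    rw [eH]
    rw [evf] at h5 ⊢
    have hq' := hq z' t'
    have hsm := hpart1 z' t' h1.le
    have hsC := (abs_le.1 (hC z' t' h1.le h2)).2
    set S := F.ev z' t' F.s
    set L := 1 / m + 4 / 3 * (t1 : ℝ) - 4 / 3 * t'
    have e1 : 4 / 3 * C * (S * L - 1) ≤ 4 / 3 * S * (S * L - 1) := by nlinarith
    have e2 : 0 ≤ L * F.ev z' t' F.q := mul_nonneg hL hq'
    nlinarith

end Pool.Agent.Helper71.RF
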