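import Pool.Agent.Helper71.RF.S2

set_option autoImplicit false

open Finset

namespace Pool.Agent.Helper71.RF

open Pool.Agent.Helper73.RF

theorem s3 (hMP2 : Mp2Stmt) (hBDD : BddStmt) (hEVS : EvsStmt) : S3Stmt := by
  intro T F hF hRF t1 Q1 e hQ1 he hs1 hqe hinf
  have hB : F.Base := hF.toBase
  obtain ⟨hs, -⟩ := hEVS T F hF hRF
  obtain ⟨-, -, -, hct⟩ := hBDD T F hB
  have ht1 : (0 : ℝ) ≤ t1 := t1.2.1.le
  have hTt : 0 < T - (t1 : ℝ) := by linarith [t1.2.2]
  by_contra hcon
  push Not at hcon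
  have h0 : (4 / 3 + (e + 0)) * (T - t1) * (Q1 + 0) < 1 := by
    rw [lt_div_iff₀ (by positivity)] at hcon
    linarith
  have hcont : Continuous (fun δ : ℝ => (4 / 3 + (e + δ)) * (T - t1) * (Q1 + δ)) := by fun_prop
  obtain ⟨δ, hδ1, hδ0⟩ := (((hcont.tendsto 0).eventually (gt_mem_nhds h0)).filter_mono
    (nhdsWithin_le_nhds (s := Set.Ioi (0 : ℝ)))).and self_mem_nhdsWithin |>.exists
  have hδ : (0 : ℝ) < δ := hδ0
  set e' := e + δ with he'
  set Q' := Q1 + δ with hQ'
  have hQ'pos : 0 < Q' := by rw [hQ']; linarith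
  have hδ1' : (4 / 3 + e') * (T - t1) * Q' < 1 := hδ1
  set c : ℝ := 1 / Q' - (4 / 3 + e') * (T - t1) with hc
  have hcpos : 0 < c := by
    rw [hc, sub_pos, lt_div_iff₀ hQ'pos]
    exact hδ1'
  set f : F.B := 1 - F.s * Lt F (1 / Q' + (4 / 3 + e') * t1) (4 / 3 + e') with hf
  have evf : ∀ z (t : TI T), F.ev z t f =
      1 - F.ev z t F.s * (1 / Q' + (4 / 3 + e') * t1 - (4 / 3 + e') * t) := by
    intro z t
    rw [hf, map_sub, map_mul, ev_Lt F hB, map_one]
  have hLc : ∀ t : TI T, c < 1 / Q' + (4 / 3 + e') * (t1 : ℝ) - (4 / 3 + e') * t := by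
    intro t
    have h1 := t.2.2
    have : 0 < 4 / 3 + e' := by rw [he']; positivity
    rw [hc]
    nlinarith
  have key : ∀ z (t : TI T), (t1 : ℝ) < t → 0 < F.ev z t f := by
    intro z t ht
    refine hMP2 T F hB f t1 t ht1 t.2.2 ?_ ?_ z t ht le_rfl
    · have h1Q : 0 < 1 - Q1 / Q' := by
        rw [sub_pos, div_lt_one hQ'pos, hQ']
        linarith
      obtain ⟨η, hη, h2⟩ := hct f t1 (1 - Q1 / Q') (fun z => by
        rw [evf, show (1 / Q' + (4 / 3 + e') * (t1 : ℝ) - (4 / 3 + e') * t1) = 1 / Q' by ring,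
          mul_one_div]
        have := div_le_div_of_nonneg_right (hs1 z) hQ'pos.le
        linarith) ((1 - Q1 / Q') / 2) (by linarith)
      refine ⟨η, hη, fun z' t' h3 h4 => ?_⟩
      have := h2 z' t' (by rw [abs_of_pos (by linarith)]; linarith)
      linarith
    · intro z' t' h1 _ h3 _
      rw [evf] at h3
      rw [hf, Hop_one_sub, Hop_mul_Lt F hB, map_neg, map_sub, map_mul, ev_Lt F hB, map_smul,
        ev_Hop_s F hs, smul_eq_mul]
      have hL := hLc t'
      have hq' := hqe z' t' h1.le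
      set S := F.ev z' t' F.s
      set L := 1 / Q' + (4 / 3 + e') * (t1 : ℝ) - (4 / 3 + e') * t'
      have hLpos : 0 < L := hcpos.trans hL
      have hSL : S * L = 1 := by linarith
      have hS : 0 < S := by
        by_contra hS
        push Not at hS
        have := mul_nonpos_of_nonpos_of_nonneg hS hLpos.le
        linarith
      have e1 : L * F.ev z' t' F.q ≤ L * (e * S ^ 2) := mul_le_mul_of_nonneg_left hq' hLpos.le
      have e2 : L * (e * S ^ 2) = e * S := by
        rw [show L * (e * S ^ 2) = e * S * (S * L) by ring, hSL, mul_one]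
      have e3 : L * (4 / 3 * S ^ 2) = 4 / 3 * S := by
        rw [show L * (4 / 3 * S ^ 2) = 4 / 3 * S * (S * L) by ring, hSL, mul_one]
      have e4 : 0 < δ * S := mul_pos hδ hS
      have e5 : (4 / 3 + e') * S = 4 / 3 * S + e * S + δ * S := by rw [he']; ring
      nlinarith
  obtain ⟨z, t, ht, hC⟩ := hinf (1 / c) t1 t1.2.2
  have h1 := key z t ht
  rw [evf] at h1
  have hL := hLc t
  set S := F.ev z t F.s
  set L := 1 / Q' + (4 / 3 + e') * (t1 : ℝ) - (4 / 3 + e') * t
  have hSpos : 0 < S := lt_trans (by positivity) hC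
  have : 1 < S * L := by
    calc (1 : ℝ) = 1 / c * c := by field_simp
      _ < S * L := mul_lt_mul'' hC hL (by positivity) hcpos.le
  linarith

end Pool.Agent.Helper71.RF
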